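import Pool.Agent.X269.HE.Blow

/-!
MP_602153_ag: regular models, projective and flat over `ℤ`, in every dimension, of
the quotients by involutions of products of hyperelliptic curves over number fields, blown up in
the fixed loci: generalized Kummer varieties and others.

Let `E` be a number field in which `2` is unramified. The factors are double covers
`y ^ 2 + h y = f` of the projective line over the integers of `E` with `deg h ≤ r`, `deg f ≤ 2 r`
(curves of genus `r - 1`), with the projective embedding by `1, x, ..., x ^ r, y`, and `rev` is the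
equation at infinity, in the coordinates `1 / x` and `y / x ^ r`. The involution `σ` of the product
`X` is the hyperelliptic involution `y ↦ - y - h`, `x ↦ x` on some of the factors (at least one) and
changes signs of `x` and `y` (or of one of them, or of none) on the others. The variety `V` has as
homogeneous coordinates, up to a common factor, the forms of degree `8` on `X` which are
anti-invariant under `σ`. It is the quotient by `σ` of the blowing-up of `X` in the fixed locus of
`σ`: locally at a fixed point, `σ` changes the signs of some of the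
coordinates `u 1, ..., u c` and fixes the others, the anti-invariant functions are generated by
`u 1, ..., u c` over the invariant ones `A`, and the invariant functions in the
chart `u 1` of the blowing-up are `A[u 2 / u 1, ..., u c / u 1]`. The case in which `σ` has no fixed
points (`IsFree`) is excluded, since then `V` is the quotient `X / σ`, which is the
subject of `EtaleInvolutionQuotients`.

Examples: if `T` is empty then `V` is the generalized Kummer variety of the product of the curves, the
quotient of the blowing-up of `X` in the products of the Weierstrass points by the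
diagonal hyperelliptic involution; for `E = ℚ` one can take the elliptic curves
`y ^ 2 + x y = x ^ 3 + x ^ 2 + x + 4 v` (here `r = 2`, `h = x`, `u = x ^ 2 + x + 1`) and the genus two
curves `y ^ 2 + h y = h`, `h = x ^ 3 + x + c`, `c` odd, if the numbers `6912 v ^ 2 - 940 v + 39` and
`(27 c ^ 2 + 4) (27 (c + 4) ^ 2 + 4)` are squarefree and pairwise coprime. On the factors in `T` one
can have the identity; then the fixed loci are of positive dimension.

The proof: (1) the product of the models is regular; (2) at a fixed point over `2` let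
`𝔞` be the ideal generated by `2` and by the functions `y` and `h` of the factors of the first kind;
`σ - 1` maps the local ring into `𝔞` and `𝔞` into `𝔞 ^ 2`, the quotient by `𝔞` is
regular and the leading form of `σ - 1` along `𝔞` has no zeros; (3) then the quotient of the
blowing-up of the centre and of the fixed schemes is regular, with an explicit finitely generated
module of forms (the criterion for involutions of the starting library, due to helpers 223, 418,
188, 214 and others); (4) over `E` the forms of this module are the products of invariant and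
anti-invariant forms of degree four, divided by one anti-invariant form, and these products span the
anti-invariant forms of degree eight.

helper269; built on the library of the starting files.
-/

set_option autoImplicit false

open AlgebraicGeometry CategoryTheory CategoryTheory.Limits Polynomial NumberField
  Pool.Agent.X269.HP Pool.Agent.X269.HQ

open scoped NumberField

namespace Pool.Agent.Results.MP_602153_ag.BlownUpInvolutionQuotients

/-- `x` are homogeneous coordinates in the field `F` of the variety with the homogeneous coordinate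
ring `B` over `E`: a form vanishes in `B` if and only if it vanishes at `x`. -/
def IsCoordinates {E F B : Type} [Field E] [Field F] [Algebra E F] [CommRing B] [Algebra E B]
    {n : ℕ} (π : MvPolynomial (Fin (n + 1)) E →ₐ[E] B) (x : Fin (n + 1) → F) : Prop :=
  ∀ d, ∀ P : MvPolynomial (Fin (n + 1)) E, P.IsHomogeneous d → (π P = 0 ↔ MvPolynomial.aeval x P = 0)

/-- The curves `C i : y ^ 2 + h y = f` over the ring of integers have `deg h ≤ r` and `deg f ≤ 2 r`,
their models are regular away from `2` (the branch polynomials `h ^ 2 + 4 f` of `C i` and of the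
equation at infinity are not in the square of a maximal ideal which does not contain `2`), and
at every prime not containing `2` at most one of them is not smooth (the primes at which `C i` is
not smooth contain `d i`). -/
def AreRegular {E : Type} [Field E] {n : ℕ} (C : Fin (n + 1) → Hyp (𝓞 E)) : Prop :=
  (∀ i, (C i).IsDeg) ∧
  (∀ i, ∀ 𝔪 : Ideal (𝓞 E)[X], 𝔪.IsMaximal → 2 ∉ 𝔪 →
    (C i).branch ∉ 𝔪 ^ 2 ∧ (C i).rev.branch ∉ 𝔪 ^ 2) ∧
  ∃ d : Fin (n + 1) → 𝓞 E, (∀ i, (C i).IsDisc (d i) ∧ (C i).rev.IsDisc (d i)) ∧
    ∀ i j, i ≠ j → ∀ 𝔭 : Ideal (𝓞 E), 𝔭.IsPrime → d i ∈ 𝔭 → d j ∈ 𝔭 → 2 ∈ 𝔭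

/-- At the primes containing `2`: for `i` not in `T` the equation of `C i` is
`y ^ 2 + h y = h u + 4 v`, where the roots of `h` are simple and not roots of `u`, including
infinity; for `i` in `T` the reduction of `C i` is smooth. -/
def AreSmoothAtTwo {E : Type} [Field E] {n : ℕ} (C : Fin (n + 1) → Hyp (𝓞 E))
    (T : Set (Fin (n + 1))) : Prop :=
  (∀ i, i ∉ T → (C i).IsOrd ∧ (C i).rev.IsOrd) ∧
  ∀ i ∈ T, (C i).IsSmoothTwo ∧ (C i).rev.IsSmoothTwo

/-- `K` is the function field of the product of the curves `C i` over `E`, with the generic points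
`(x i, y i)`. -/
def IsProductField {E K : Type} [Field E] [Field K] [Algebra E K] {n : ℕ}
    (C : Fin (n + 1) → Hyp (𝓞 E)) (x y : Fin (n + 1) → K) : Prop :=
  AlgebraicIndependent E x ∧
  (∀ i, y i ^ 2 + aeval (x i) ((C i).h.map (algebraMap (𝓞 E) E)) * y i =
    aeval (x i) ((C i).f.map (algebraMap (𝓞 E) E))) ∧
  IntermediateField.adjoin E (Set.range x ∪ Set.range y) = ⊤

/-- `σ` is an automorphism of `K` over `E` which maps `(x i, y i)` to
`(x i, - y i - h (x i))` for `i` not in `T`, and to `(± x i, ± y i)` for `i` in `T`, with any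
signs, and has the field of invariants `F`. -/
def IsInvolution {E F K : Type} [Field E] [Field F] [Field K] [Algebra E K] [Algebra F K] {n : ℕ}
    (C : Fin (n + 1) → Hyp (𝓞 E)) (x y : Fin (n + 1) → K) (T : Set (Fin (n + 1)))
    (σ : K ≃ₐ[E] K) : Prop :=
  (∀ i, i ∉ T → σ (x i) = x i ∧
    σ (y i) = -y i - aeval (x i) ((C i).h.map (algebraMap (𝓞 E) E))) ∧
  (∀ i ∈ T, (σ (x i) = x i ∨ σ (x i) = -x i) ∧ (σ (y i) = y i ∨ σ (y i) = -y i)) ∧
  ∀ z, σ z = z ↔ ∃ f : F, algebraMap F K f = z

/-- On one of the factors `i` in `T` the involution is `(x i, y i) ↦ (- x i, - y i)`, `r` is even, and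
the coefficients of `1` and `x ^ (2 r)` in `f` are not zero. -/
def IsFree {E K : Type} [Field E] [Field K] [Algebra E K] {n : ℕ}
    (C : Fin (n + 1) → Hyp (𝓞 E)) (x y : Fin (n + 1) → K) (T : Set (Fin (n + 1)))
    (σ : K ≃ₐ[E] K) : Prop :=
  ∃ i ∈ T, σ (x i) = -x i ∧ σ (y i) = -y i ∧ Even (C i).r ∧ (C i).f.coeff 0 ≠ 0 ∧
    (C i).f.coeff (2 * (C i).r) ≠ 0

/-- Up to a common factor `w₁`, which is anti-invariant under `σ`, the coordinates `z` span over `E` the
space of the forms of degree eight on the product of the curves `C i` which are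
anti-invariant under `σ`; here the forms of degree one are the linear combinations of the
products of the forms `1, x i, ..., x i ^ r, y i` (the Segre embedding). -/
def AreAntiInvariantForms {E F K : Type} [Field E] [Field F] [Field K] [Algebra E K]
    [Algebra F K] {n N : ℕ} (C : Fin (n + 1) → Hyp (𝓞 E)) (x y : Fin (n + 1) → K)
    (σ : K ≃ₐ[E] K) (z : Fin (N + 1) → F) : Prop :=
  ∃ w₁ : K, w₁ ≠ 0 ∧ σ w₁ = -w₁ ∧
    ∀ w : K, w ∈ Submodule.span E (Set.range fun j => w₁ * algebraMap F K (z j)) ↔
      w ∈ (∏ i, forms E (C i).r (x i) (y i)) ^ 8 ∧ σ w = -w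

/-- The dimensions of the local rings of `A` equal the dimensions of their cotangent spaces. -/
def HasRegularLocalRings (A : Type) [CommRing A] : Prop :=
  ∀ p : PrimeSpectrum A, ringKrullDim (Localization.AtPrime p.asIdeal) =
    (((Module.finrank (IsLocalRing.ResidueField (Localization.AtPrime p.asIdeal))
      (IsLocalRing.CotangentSpace (Localization.AtPrime p.asIdeal)) : ℕ) : ℕ∞) : WithBot ℕ∞)

/-- The local rings of the locally Noetherian scheme `Y` are regular. -/
def IsRegularScheme (Y : Scheme.{0}) : Prop :=
  IsLocallyNoetherian Y ∧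
  ∀ U : Y.affineOpens, HasRegularLocalRings (Y.presheaf.obj (Opposite.op U.1))

/-- `Y` is projective over the integers. -/
def IsProjectiveOverInt (Y : Scheme.{0}) : Prop :=
  ∃ (A : Type) (_ : CommRing A) (𝒜 : ℕ → Submodule ℤ A) (_ : GradedAlgebra 𝒜),
    (∀ a ∈ 𝒜 0, ∃ n : ℤ, (n : A) = a) ∧
    (∃ s : Finset A, (∀ a ∈ s, a ∈ 𝒜 1) ∧ Algebra.adjoin ℤ (s : Set A) = ⊤) ∧
    Nonempty (Y ≅ Proj 𝒜)

/-- The generic fibre of `Y` is isomorphic to `V`. -/
def HasGenericFibre (Y V : Scheme.{0}) : Prop :=
  Nonempty (pullback (specZIsTerminal.from Y)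
      (specZIsTerminal.from (Spec (CommRingCat.of ℚ))) ≅ V)

/-- `Y` is an integral regular locally Noetherian scheme, projective and flat over the integers,
with generic fibre `V`. -/
def IsRegularProjectiveFlatModel (V Y : Scheme.{0}) : Prop :=
  IsIntegral Y ∧ IsRegularScheme Y ∧ IsProjectiveOverInt Y ∧ Flat (specZIsTerminal.from Y) ∧
    HasGenericFibre Y V

theorem result :
    ∀ (E : Type) [Field E] [NumberField E], Squarefree (Ideal.span {(2 : 𝓞 E)}) →
      -- the curves
      ∀ (n : ℕ) (C : Fin (n + 1) → Hyp (𝓞 E)), AreRegular C →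
      ∀ T : Set (Fin (n + 1)), (∃ i, i ∉ T) → AreSmoothAtTwo C T →
      -- the function fields
      ∀ (F K : Type) [Field F] [Field K] [Algebra E F] [Algebra E K] [Algebra F K]
      [IsScalarTower E F K] (x y : Fin (n + 1) → K), IsProductField C x y →
      -- the involution
      ∀ σ : K ≃ₐ[E] K, IsInvolution (F := F) C x y T σ → ¬ IsFree C x y T σ →
      -- the variety `V`
      ∀ (N : ℕ) (B : Type) [CommRing B] [Algebra E B] (π : MvPolynomial (Fin (N + 1)) E →ₐ[E] B),
      Function.Surjective π →
      ∀ (ℬ : ℕ → Submodule E B) [GradedAlgebra ℬ],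
      (∀ d, ℬ d = (MvPolynomial.homogeneousSubmodule (Fin (N + 1)) E d).map π.toLinearMap) →
      ∀ z : Fin (N + 1) → F, IsCoordinates π z → AreAntiInvariantForms C x y σ z →
      -- every scheme isomorphic to `Proj ℬ` has a regular projective flat model over the integers
      ∀ (V : Scheme.{0}), Nonempty (V ≅ Proj ℬ) → ∃ Y, IsRegularProjectiveFlatModel V Y := by
  intro E _ _ h2 n C ⟨hC, hR, d, hd, hco⟩ T hT ⟨hord, hsmo⟩ F K _ _ _ _ _ _ x y ⟨hx, hE, hK⟩ σ
    ⟨hσ, hσt, hσF⟩ _ N B _ _ π hπ ℬ _ hℬ z hz ⟨w₁, hw₁, hσw₁, hzw⟩ V hV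
  let _ : Algebra (𝓞 E) F := ((algebraMap E F).comp (algebraMap (𝓞 E) E)).toAlgebra
  have hst : IsScalarTower (𝓞 E) E F := IsScalarTower.of_algebraMap_eq fun _ => rfl
  have hM : Pool.Agent.W418.GoodModule (𝓞 E) z :=
    Pool.Agent.X269.HE.bl_of_data h2 C hC hR d hd hco T hT hord hsmo x y hx hE hK σ hσ hσt hσF z
      hw₁ hσw₁ hzw
  obtain ⟨ε, hε, hεgen, hε1⟩ := Pool.Agent.Y223.INV.exists_eps2 z π hπ ℬ hℬ
    (fun d P hP => hz d P hP)
  obtain ⟨Y, h1, h2, h3, h4, h5, h6⟩ :=
    Pool.Agent.TH214.RM.hasRegularModel_of_goodModule (O := 𝓞 E) ℬ ε hε hεgen z hε1 hM V hV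
  exact ⟨Y, h1, ⟨h2, h3⟩, h4, h5, h6⟩

end Pool.Agent.Results.MP_602153_ag.BlownUpInvolutionQuotients
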